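import Mathlib
import Pool.Agent.Lib.MP_922b49_co.Rigid

set_option autoImplicit false

/-! # Uncountably many classes of `(-1,1,t)`-threshold graphs -/

namespace Pool.Agent.Results.MP_922b49_co.UncountablyMany

open Pool.Agent.Lib.MP_922b49_co

/-- The class `C_t` of all `(-1,1,t)`-threshold graphs (finite simple graphs, listed on the
vertex sets `Fin n`): there are real ranks `r` such that distinct vertices `v, w` are adjacent
exactly when `r v + r w ∈ [-1,1) ∪ [t,∞)`. -/
def thresholdClass (t : ℝ) : Set (Σ n : ℕ, SimpleGraph (Fin n)) :=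
  {G | ∃ r : Fin G.1 → ℝ, ∀ v w : Fin G.1, v ≠ w →
    (G.2.Adj v w ↔ r v + r w ∈ Set.Ico (-1) 1 ∪ Set.Ici t)}

/-- The graph given by a rank function on `Fin N` and the threshold `t`. -/
def rankGraph (N : ℕ) (r : Fin N → ℝ) (t : ℝ) : SimpleGraph (Fin N) where
  Adj v w := v ≠ w ∧ r v + r w ∈ Set.Ico (-1) 1 ∪ Set.Ici t
  symm := ⟨fun v w h => ⟨h.1.symm, by rw [add_comm]; exact h.2⟩⟩
  loopless := ⟨fun v h => h.1 rfl⟩

theorem mem_iff (N : ℕ) (G : SimpleGraph (Fin N)) (t : ℝ) :
    (⟨N, G⟩ : Σ n : ℕ, SimpleGraph (Fin n)) ∈ thresholdClass t ↔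
      ∃ r : Fin N → ℝ, ∀ v w : Fin N, v ≠ w →
        (G.Adj v w ↔ r v + r w ∈ Set.Ico (-1) 1 ∪ Set.Ici t) := Iff.rfl

theorem rankGraph_mem (N : ℕ) (r : Fin N → ℝ) (t : ℝ) :
    (⟨N, rankGraph N r t⟩ : Σ n : ℕ, SimpleGraph (Fin n)) ∈ thresholdClass t :=
  ⟨r, fun _ _ hvw => ⟨fun h => h.2, fun h => ⟨hvw, h⟩⟩⟩

/-- Ranks realising the window pattern. -/
noncomputable def rk (M K : ℕ) (v : Fin (2 * (K + 1))) : ℝ :=
  if (v : ℕ) ≤ K then -(((v : ℕ) : ℝ) / M) else (((v : ℕ) - (K + 1) : ℕ) : ℝ) / M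

theorem distinct (t t' : ℝ) (ht : 8 ≤ t) (htt : t < t') :
    thresholdClass t ≠ thresholdClass t' := by
  intro heq
  obtain ⟨M, hM⟩ := exists_nat_gt ((t' + 3) / (2 * (t' - t)))
  have hd : 0 < 2 * (t' - t) := by linarith
  have hM0 : (0 : ℝ) < M := lt_of_le_of_lt (div_nonneg (by linarith) hd.le) hM
  rw [div_lt_iff₀ hd] at hM
  have hM1 : 1 ≤ M := by exact_mod_cast hM0
  set n := ⌈t * M⌉₊ with hn
  have htM : 0 ≤ t * M := by positivity
  have hn1 : t * M ≤ n := Nat.le_ceil _
  have hn2 : (n : ℝ) < t * M + 1 := Nat.ceil_lt_add_one htM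
  have hn8 : 8 * M ≤ n := by
    have : ((8 * M : ℕ) : ℝ) ≤ n := by
      push_cast
      nlinarith
    exact_mod_cast this
  set K := (n + 7 * M + 1) + (n - M + 1) * (2 * M - 1) + 3 * n + 3 * M with hK
  have hmem : (⟨2 * (K + 1), rankGraph (2 * (K + 1)) (rk M K) t⟩ :
      Σ n : ℕ, SimpleGraph (Fin n)) ∈ thresholdClass t' := by
    rw [← heq]
    exact rankGraph_mem _ _ _
  rw [mem_iff] at hmem
  obtain ⟨r', hr'⟩ := hmem
  have hrep : Rep M n K (fun x => if h : x ≤ K then r' ⟨x, by omega⟩ else 0)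
      (fun y => if h : y ≤ K then r' ⟨K + 1 + y, by omega⟩ else 0) t' := by
    intro x y hx hy
    have h1 := hr' ⟨x, by omega⟩ ⟨K + 1 + y, by omega⟩ (by
      intro h
      rw [Fin.mk.injEq] at h
      omega)
    simp only [hx, hy, dite_true]
    rw [Set.mem_union, Set.mem_Ico, Set.mem_Ici] at h1
    rw [← h1]
    have h2 : rk M K ⟨x, by omega⟩ = -((x : ℝ) / M) := by
      unfold rk
      simp [hx]
    have h3 : rk M K ⟨K + 1 + y, by omega⟩ = (y : ℝ) / M := by
      unfold rk
      have h4 : ¬ (K + 1 + y ≤ K) := by omega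
      have h5 : K + 1 + y - (K + 1) = y := by omega
      simp only [h4, if_false, h5]
    have h6 : (rankGraph (2 * (K + 1)) (rk M K) t).Adj ⟨x, by omega⟩ ⟨K + 1 + y, by omega⟩ ↔
        (-((x : ℝ) / M) + (y : ℝ) / M ∈ Set.Ico (-1) 1 ∪ Set.Ici t) := by
      unfold rankGraph
      simp only [h2, h3]
      constructor
      · exact fun h => h.2
      · intro h
        refine ⟨?_, h⟩
        intro h'
        rw [Fin.mk.injEq] at h'
        omega
    rw [h6, Set.mem_union, Set.mem_Ico, Set.mem_Ici]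
    have h7 : -((x : ℝ) / M) + (y : ℝ) / M = ((y : ℝ) - x) / M := by ring
    rw [h7, le_div_iff₀ hM0, div_lt_iff₀ hM0, le_div_iff₀ hM0]
    unfold W
    have e1 : x ≤ y + M ↔ -1 * (M : ℝ) ≤ (y : ℝ) - x := by
      rw [← Nat.cast_le (α := ℝ)]
      push_cast
      constructor <;> intro h <;> linarith
    have e2 : y < x + M ↔ (y : ℝ) - x < 1 * (M : ℝ) := by
      rw [← Nat.cast_lt (α := ℝ)]
      push_cast
      constructor <;> intro h <;> linarith
    have e3 : x + n ≤ y ↔ t * (M : ℝ) ≤ (y : ℝ) - x := by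
      constructor
      · intro h
        have h' : ((x + n : ℕ) : ℝ) ≤ y := Nat.cast_le.mpr h
        push_cast at h'
        linarith
      · intro h
        have h8 : (x : ℝ) ≤ y := by linarith
        have h9 : x ≤ y := Nat.cast_le.mp h8
        have h10 : t * (M : ℝ) ≤ ((y - x : ℕ) : ℝ) := by
          rw [Nat.cast_sub h9]
          exact h
        have h11 : n ≤ y - x := Nat.ceil_le.mpr h10
        omega
    rw [e1, e2, e3]
  have hrig := rigid hrep hM1 hn8 le_rfl
  have hc1 : ((2 * M - 1 : ℕ) : ℝ) = 2 * M - 1 := by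
    rw [Nat.cast_sub (by omega)]
    push_cast
    ring
  have hc2 : ((n - M + 1 : ℕ) : ℝ) = n - M + 1 := by
    rw [Nat.cast_add, Nat.cast_sub (by omega)]
    push_cast
    ring
  rw [hc1, hc2] at hrig
  nlinarith

/-- There are uncountably many pairwise distinct classes `C_t`, `t > 1`. -/
theorem result : ¬ (thresholdClass '' Set.Ioi (1 : ℝ)).Countable := by
  intro hcount
  have hinj : Set.InjOn thresholdClass (Set.Ici (8 : ℝ)) := by
    intro t ht t' ht' heq
    rcases lt_trichotomy t t' with h | h | h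
    · exact absurd heq (distinct t t' ht h)
    · exact h
    · exact absurd heq.symm (distinct t' t ht' h)
  have hsub : thresholdClass '' Set.Ici (8 : ℝ) ⊆ thresholdClass '' Set.Ioi (1 : ℝ) :=
    Set.image_mono (fun x hx => by
      rw [Set.mem_Ici] at hx
      rw [Set.mem_Ioi]
      linarith)
  have h1 : (Set.Ici (8 : ℝ)).Countable := by
    have := hcount.mono hsub
    exact Set.countable_of_injective_of_countable_image hinj this
  have h2 : (Set.Ici (8 : ℝ)).Countable → False := by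
    intro h
    have h3 := h.le_aleph0
    rw [Cardinal.mk_Ici_real] at h3
    exact absurd h3 (not_le.mpr Cardinal.aleph0_lt_continuum)
  exact h2 h1

end Pool.Agent.Results.MP_922b49_co.UncountablyMany
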